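import Pool.Agent.helper14.NR.Cover20
import Pool.Agent.helper12.KA.All
import Pool.Agent.helper12.KB.All
import Pool.Agent.helper12.KC.All
import Pool.Agent.helper12.KD.All
import Pool.Agent.helper12.KE.All
import Pool.Agent.helper63.NF.Far20W

/-!
# Traps for `4 ≤ e ≤ 20`
-/

namespace Pool.Agent.helper14.NR

open Pool.Agent.helper31.EQ Pool.Agent.helper31.EQ.R
open Pool.Agent.helper12.RS
open Pool.Agent.helper63.NF hiding TD

variable {e κ : ℝ}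

/-- the record, `4 ≤ e ≤ 20` -/
theorem rdata20 (h4 : 4 ≤ e) (h20 : e ≤ 20) (hκ : 0 < κ)
    (hd : 2 * (Real.cosh κ - 1) / Real.cosh (e * κ / 2) ^ (2 / e) < 4 ^ (1 / e) - 1) :
    Nonempty (RDataF e κ) :=
  near20 h4 h20 hκ hd
    (fun h5 hb hS => Pool.Agent.helper12.KA.corner h4 h5 hκ hb hS)
    (fun h5 h6 hb hS => Pool.Agent.helper12.KB.corner h5 h6 hκ hb hS)
    (fun h6 h8 hb hS => Pool.Agent.helper12.KC.corner h6 h8 hκ hb hS)
    (fun h8 h12 hb hS => Pool.Agent.helper12.KD.corner h8 h12 hκ hb hS)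
    (fun h12 hb hS => Pool.Agent.helper12.KE.corner h12 h20 hκ hb hS)
    (farW20 h4 h20 hκ hd)

/-- **Traps, `4 ≤ e ≤ 20`.** -/
theorem trap20 (h4 : 4 ≤ e) (h20 : e ≤ 20) (hκ : 0 < κ)
    (hd : 2 * (Real.cosh κ - 1) / Real.cosh (e * κ / 2) ^ (2 / e) < 4 ^ (1 / e) - 1) :
    Nonempty (SeqTrap e (Real.exp κ)) := by
  obtain ⟨W⟩ := rdata20 h4 h20 hκ hd
  exact W.nonempty_seqTrap (by linarith) hκ

end Pool.Agent.helper14.NR
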