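import Pool.Agent.helper63.NF.Poly
import Pool.Agent.helper12.RS.Kmax

/-!
# The top of the range of `b = e κ / 2`

One program in `ε = 1/e` shows `e κ / 2 < c0 + c1 / e + c2 / e ^ 2` for all admissible `κ`.
-/

namespace Pool.Agent.helper14.NR

open Pool.Agent.helper31.IA (Z get InBox)
open Pool.Agent.helper31.IX (Op Asserts Cov)
open Pool.Agent.helper63.NF
open Pool.Agent.helper12.RS (kfun kmax_lt kfun_eq Hh)

/-- the start: one input -/
def ρ1 : List (ℕ × ℕ) := []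

/-- the program -/
def topP (c0 c1 c2 : ℤ) : List St :=
  [.set 1 (.add (.mul (.add (.sc (zi c2) (.r 0)) (.c (zi c1))) (.r 0)) (.c (zi c0))),
   .pos (.r 1),
   .set 2 (.sc (zi 2199023255552) (.mul (.r 0) (.r 1))),
   .set 3 (.exp (.neg (.r 2))),
   .set 4 (.sub (.c (zi 1099511627776)) (.r 3)),
   .set 5 (.exp (.neg (.sc (zi 2199023255552) (.r 1)))),
   .set 6 (.log (.add (.c (zi 1099511627776)) (.r 5))),
   .set 7 (.log (.c (zi 2199023255552))),
   .set 8 (.sc (zi 2199023255552) (.r 0)),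
   .set 9 (.exp (.mul (.r 8) (.sub (.r 7) (.r 6)))),
   .set 10 (.exp (.mul (.r 8) (.r 7))),
   .pos (.add (.sub (.mul (.mul (.r 4) (.r 4)) (.r 9)) (.r 10)) (.c (zi 1099511627776)))]

theorem rel1 (a : ℂ) : Rel (look ρ1) [a] (fun _ => a) := by
  refine ⟨fun i => ?_, fun i => rfl⟩
  show (0 : ℕ) < 1
  omega

theorem comp1 {P : List St} {a : ℂ} (h : Asserts (comp P ρ1 1) [a]) :
    Sem P (fun _ => a) (fun _ => True) := comp_sound (rel1 a) h

theorem z1 : (zi 1099511627776).val = ((1 : ℝ) : ℂ) := by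
  rw [zi_val, cv]
  norm_num

theorem z2 : (zi 2199023255552).val = ((2 : ℝ) : ℂ) := by
  rw [zi_val, cv]
  norm_num

/-- the bound of `b` -/
noncomputable def topB (c0 c1 c2 : ℤ) (ε : ℝ) : ℝ :=
  ((c2 : ℝ) / 2 ^ 40 * ε + (c1 : ℝ) / 2 ^ 40) * ε + (c0 : ℝ) / 2 ^ 40

theorem topP_sound {c0 c1 c2 : ℤ} {ε : ℝ}
    (h : Sem (topP c0 c1 c2) (fun _ => (ε : ℂ)) (fun _ => True)) :
    0 < topB c0 c1 c2 ε ∧ Real.exp (2 * ε * Real.log 2) - 1 <
      (1 - Real.exp (-(2 * (ε * topB c0 c1 c2 ε)))) ^ 2 *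
        Real.exp (2 * ε * (Real.log 2 - Real.log (1 + Real.exp (-(2 * topB c0 c1 c2 ε))))) := by
  obtain ⟨B, hB⟩ : ∃ B, B = topB c0 c1 c2 ε := ⟨_, rfl⟩
  rw [← hB]
  have h := h.2 ((B : ℝ) : ℂ) (by
    simp only [E.ev, zi_val, cv, hB, topB]
    push_cast
    ring)
  obtain ⟨-, hp, h⟩ := h
  have hp' : 0 < B := by
    have : E.ev (upd (fun _ => (ε : ℂ)) 1 (B : ℂ)) (.r 1) = (B : ℂ) := rfl
    rw [this, Complex.ofReal_re] at hp
    exact hp
  refine ⟨hp', ?_⟩
  obtain ⟨k, hk⟩ : ∃ k, k = 2 * (ε * B) := ⟨_, rfl⟩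
  have h := h.2 ((k : ℝ) : ℂ) (by
    simp only [E.ev, upd, Nat.reduceEqDiff, reduceIte, z2, hk]
    push_cast
    ring)
  have h := h.2 ((Real.exp (-k) : ℝ) : ℂ) (by
    simp only [E.ev, upd, Nat.reduceEqDiff, reduceIte]
    push_cast
    rfl)
  have h := h.2 ((1 - Real.exp (-k) : ℝ) : ℂ) (by
    simp only [E.ev, upd, Nat.reduceEqDiff, reduceIte, z1]
    push_cast
    rfl)
  have h := h.2 ((Real.exp (-(2 * B)) : ℝ) : ℂ) (by
    simp only [E.ev, upd, Nat.reduceEqDiff, reduceIte, z2]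
    push_cast
    rfl)
  have h := h.2 ((Real.log (1 + Real.exp (-(2 * B))) : ℝ) : ℂ) (by
    simp only [E.ev, upd, Nat.reduceEqDiff, reduceIte, z1]
    rw [Complex.ofReal_log (by positivity)]
    push_cast
    rfl)
  have h := h.2 ((Real.log 2 : ℝ) : ℂ) (by
    simp only [E.ev, z2]
    rw [Complex.ofReal_log (by positivity)])
  have h := h.2 ((2 * ε : ℝ) : ℂ) (by
    simp only [E.ev, upd, Nat.reduceEqDiff, reduceIte, z2]
    push_cast
    rfl)
  have h := h.2 ((Real.exp (2 * ε * (Real.log 2 - Real.log (1 + Real.exp (-(2 * B))))) : ℝ) : ℂ)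
    (by
      simp only [E.ev, upd, Nat.reduceEqDiff, reduceIte]
      push_cast
      rfl)
  have h := h.2 ((Real.exp (2 * ε * Real.log 2) : ℝ) : ℂ) (by
    simp only [E.ev, upd, Nat.reduceEqDiff, reduceIte]
    push_cast
    rfl)
  have hq := h.2.1
  simp only [E.ev, upd, Nat.reduceEqDiff, reduceIte, z1] at hq
  rw [← Complex.ofReal_mul, ← Complex.ofReal_mul, ← Complex.ofReal_sub, ← Complex.ofReal_add,
    Complex.ofReal_re] at hq
  rw [← hk]
  nlinarith [hq]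

theorem four_rpow (e : ℝ) : (4 : ℝ) ^ (1 / e) = Real.exp (2 * (1 / e) * Real.log 2) := by
  rw [Real.rpow_def_of_pos (by norm_num), show (4 : ℝ) = 2 ^ 2 by norm_num, Real.log_pow]
  congr 1
  push_cast
  ring

theorem kfun_top {e B : ℝ} (he : 0 < e) :
    kfun e (2 * (1 / e * B)) = (1 - Real.exp (-(2 * (1 / e * B)))) ^ 2 *
      Real.exp (2 * (1 / e) * (Real.log 2 - Real.log (1 + Real.exp (-(2 * B))))) := by
  rw [kfun_eq]
  obtain ⟨k, hk⟩ : ∃ k, k = 2 * (1 / e * B) := ⟨_, rfl⟩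
  rw [← hk]
  have hb : e * k / 2 = B := by
    rw [hk]
    field_simp
  rw [hb]
  have hM : 0 < 1 + Real.exp (-(2 * B)) := by positivity
  have hc : Real.cosh B = Real.exp (B + (Real.log (1 + Real.exp (-(2 * B))) - Real.log 2)) := by
    rw [Real.exp_add, Real.exp_sub, Real.exp_log hM, Real.exp_log (by norm_num), Real.cosh_eq]
    have h1 : Real.exp B * Real.exp (-(2 * B)) = Real.exp (-B) := by
      rw [← Real.exp_add]
      congr 1
      ring
    rw [← h1]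
    ring
  have hcp : Real.cosh B ^ (2 / e) =
      Real.exp (k + 2 * (1 / e) * (Real.log (1 + Real.exp (-(2 * B))) - Real.log 2)) := by
    rw [hc, ← Real.exp_mul]
    congr 1
    rw [hk]
    ring
  rw [hcp]
  have hH : Hh k ^ 2 = (1 - Real.exp (-k)) ^ 2 * Real.exp k := by
    unfold Hh
    rw [Real.sinh_eq]
    have h1 : Real.exp k = Real.exp (k / 2) ^ 2 := by
      rw [sq, ← Real.exp_add]
      congr 1
      ring
    have h2 : Real.exp (-k) = Real.exp (-(k / 2)) ^ 2 := by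
      rw [sq, ← Real.exp_add]
      congr 1
      ring
    have h3 : Real.exp (k / 2) * Real.exp (-(k / 2)) = 1 := by
      rw [← Real.exp_add]
      simp
    rw [h1, h2]
    have h4 : (1 - Real.exp (-(k / 2)) ^ 2) * Real.exp (k / 2) =
        Real.exp (k / 2) - Real.exp (-(k / 2)) := by
      calc (1 - Real.exp (-(k / 2)) ^ 2) * Real.exp (k / 2)
          = Real.exp (k / 2) - (Real.exp (k / 2) * Real.exp (-(k / 2))) * Real.exp (-(k / 2)) := by
            ring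
        _ = _ := by rw [h3, one_mul]
    calc (2 * ((Real.exp (k / 2) - Real.exp (-(k / 2))) / 2)) ^ 2
        = (Real.exp (k / 2) - Real.exp (-(k / 2))) ^ 2 := by ring
      _ = ((1 - Real.exp (-(k / 2)) ^ 2) * Real.exp (k / 2)) ^ 2 := by rw [h4]
      _ = _ := by ring
  rw [hH, mul_div_assoc, ← Real.exp_sub]
  congr 2
  ring

/-- **The top of the range.** -/
theorem top_of {c0 c1 c2 : ℤ} {c h : ℕ} (hc : Cov 0 (comp (topP c0 c1 c2) ρ1 1) [(c, h)])
    {e κ : ℝ} (he : 0 < e) (h1 : |1 / e - (c : ℝ) / 2 ^ 40| ≤ (h : ℝ) / 2 ^ 40)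
    (hd : 2 * (Real.cosh κ - 1) / Real.cosh (e * κ / 2) ^ (2 / e) < 4 ^ (1 / e) - 1) :
    e * κ / 2 < topB c0 c1 c2 (1 / e) := by
  have hu : InBox [(c, h)] [1 / e] := List.Forall₂.cons h1 List.Forall₂.nil
  have ha := hc [1 / e] [] hu rfl (by simp)
  have hs := topP_sound (ε := 1 / e) (comp1 ha)
  obtain ⟨hB, hlt⟩ := hs
  obtain ⟨B, hB'⟩ : ∃ B, B = topB c0 c1 c2 (1 / e) := ⟨_, rfl⟩
  rw [← hB'] at hB hlt ⊢
  have hκ1 : 0 < 2 * (1 / e * B) := by positivity
  have h2 : κ < 2 * (1 / e * B) := by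
    apply kmax_lt he hκ1 hd
    rw [kfun_top he, four_rpow]
    exact hlt.le
  have h3 := mul_lt_mul_of_pos_left h2 he
  have h4 : e * (2 * (1 / e * B)) = 2 * B := by
    field_simp
  rw [h4] at h3
  linarith

end Pool.Agent.helper14.NR
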