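import Pool.Agent.helper63.NF.Piece20
import Pool.Agent.helper14.NR.Top

/-!
# Pieces in terms of the ranges of `e` and `b = e κ / 2`
-/

namespace Pool.Agent.helper14.NR

open Pool.Agent.helper31.EQ.R
open Pool.Agent.helper12.RS
open Pool.Agent.helper63.NF

variable {t : TD} {N0 : ℕ} {be bb bA bB bC bD bv : ℕ × ℕ} {e κ : ℝ}

theorem inB_of {b : ℕ × ℕ} {s l r : ℝ} (hl : ((b.1 : ℝ) - b.2) / 2 ^ 40 ≤ l) (h1 : l ≤ s)
    (h2 : s ≤ r) (hr : r ≤ ((b.1 : ℝ) + b.2) / 2 ^ 40) : inB b s := by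
  unfold inB
  rw [abs_le]
  rw [sub_div] at hl
  rw [add_div] at hr
  constructor <;> linarith

/-- the range of `1/e` -/
theorem inB_e {b : ℕ × ℕ} {e1 e2 : ℝ} (he1 : 0 < e1) (h1 : e1 ≤ e) (h2 : e ≤ e2)
    (hl : ((b.1 : ℝ) - b.2) / 2 ^ 40 ≤ 1 / e2) (hr : 1 / e1 ≤ ((b.1 : ℝ) + b.2) / 2 ^ 40) :
    inB b (1 / e) :=
  inB_of hl (one_div_le_one_div_of_le (he1.trans_le h1) h2) (one_div_le_one_div_of_le he1 h1) hr

/-- a piece between two constants -/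
theorem piece_c (hC : Certs t N0 be bb bA bB bC bD bv)
    (hk : pieceOk t N0 bA bB bC bD bv = true) (hf : farOk20 t bb = true) (hbm : t.bm = none)
    (h4 : 4 ≤ e) (hκ : 0 < κ) (hbe : inB be (1 / e)) (hbb : inB bb (e * κ / 2))
    (hcor : t.strip = true → SF t N0 e κ (39 / 10) → Corner t N0 e κ (1 / 8) (1 / 20))
    (far : FarW e κ) : Nonempty (RDataF e κ) :=
  piece20 hC hk hf h4 hκ hbe hbb (by
    unfold TD.bv
    rw [hbm]) hcor far

/-- the last piece -/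
theorem piece_m (hC : Certs t N0 be bb bA bB bC bD bv)
    (hk : pieceOk t N0 bA bB bC bD bv = true) (hf : farOk20 t bb = true) {m2 m1 m0 b1 : ℤ}
    (hbm : t.bm = some (m2, m1, m0, b1)) (hb : bb.1 = bb.2 ∧ 2 ^ 39 ≤ bb.1) (hs : t.strip = false)
    (h4 : 4 ≤ e) (hκ : 0 < κ) (hbe : inB be (1 / e)) (h1 : (b1 : ℝ) / 2 ^ 40 ≤ e * κ / 2)
    (h2 : e * κ / 2 < topB (m0 + b1) m1 m2 (1 / e)) (far : FarW e κ) : Nonempty (RDataF e κ) := by
  obtain ⟨D, hD⟩ : ∃ D, D = (rv m2 * (1 / e) + rv m1) * (1 / e) + rv m0 := ⟨_, rfl⟩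
  have e1 : topB (m0 + b1) m1 m2 (1 / e) = D + rv b1 := by
    rw [hD]
    unfold topB rv
    push_cast
    ring
  rw [e1] at h2
  have h1' : rv b1 ≤ e * κ / 2 := h1
  have hD0 : 0 < D := by linarith
  have s0 : 0 ≤ (e * κ / 2 - rv b1) / D := div_nonneg (by linarith) hD0.le
  have s1 : (e * κ / 2 - rv b1) / D ≤ 1 := by
    rw [div_le_one hD0]
    linarith
  refine piece20 (s' := (e * κ / 2 - rv b1) / D) hC hk hf h4 hκ hbe ?_ ?_
    (fun h => absurd (hs.symm.trans h) (by decide)) far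
  · refine inB_of (l := 0) (r := 1) ?_ s0 s1 ?_
    · rw [hb.1]
      simp
    · have h3 : (2 : ℝ) ^ 39 ≤ (bb.1 : ℝ) := by exact_mod_cast hb.2
      rw [← hb.1, le_div_iff₀ (by positivity)]
      have h4 : (1 : ℝ) * 2 ^ 40 = 2 ^ 39 + 2 ^ 39 := by norm_num
      rw [h4]
      linarith
  · unfold TD.bv
    rw [hbm]
    show (e * κ / 2 - rv b1) / D * ((rv m2 * (1 / e) + rv m1) * (1 / e) + rv m0) + rv b1 = _
    rw [← hD, div_mul_cancel₀ _ hD0.ne']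
    ring

end Pool.Agent.helper14.NR
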