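import Pool.Agent.helper14.CF.InstE
import Pool.Agent.helper63.RG.MaxP

/-!
# Compiled programs shared by several charts

A chart program is `P1 ++ reloc σ D 0 P2`. The compiled form of `P2` is used for all charts.
-/

namespace Pool.Agent.helper14.NR

open Pool.Agent.helper31.IA (Z)
open Pool.Agent.helper31.IX (Op XOps runX)
open Pool.Agent.helper31.IC (nthG Ops)
open Pool.Agent.helper63.RG (reloc rn nthN)

deriving instance DecidableEq for Pool.Agent.helper31.IA.Z
deriving instance DecidableEq for Pool.Agent.helper31.IX.Op

/-- run a program, then `k` with all values -/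
def runK (X : XOps) (nr : Nat) : List Op → List X.O.α → (List X.O.α → Bool) → Bool
  | [], m, k => k m
  | Op.const z :: t, m, k => let v := X.O.cst z; X.O.ok v && runK X nr t (v :: m) k
  | Op.add i j :: t, m, k =>
      let v := X.O.add (nthG X.O m i) (nthG X.O m j); X.O.ok v && runK X nr t (v :: m) k
  | Op.sub i j :: t, m, k =>
      let v := X.O.sub (nthG X.O m i) (nthG X.O m j); X.O.ok v && runK X nr t (v :: m) k
  | Op.mul i j :: t, m, k =>
      let v := X.O.mul (nthG X.O m i) (nthG X.O m j); X.O.ok v && runK X nr t (v :: m) k
  | Op.scale z i :: t, m, k =>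
      let v := X.O.scale z (nthG X.O m i); X.O.ok v && runK X nr t (v :: m) k
  | Op.neg i :: t, m, k => let v := X.O.neg (nthG X.O m i); X.O.ok v && runK X nr t (v :: m) k
  | Op.inv i :: t, m, k => let v := X.O.inv (nthG X.O m i); X.O.ok v && runK X nr t (v :: m) k
  | Op.exp i :: t, m, k => let v := X.O.exp (nthG X.O m i); X.O.ok v && runK X nr t (v :: m) k
  | Op.log i :: t, m, k => let v := X.O.log (nthG X.O m i); X.O.ok v && runK X nr t (v :: m) k
  | Op.pos i :: t, m, k => X.O.isPos nr (nthG X.O m i) && runK X nr t m k
  | Op.lt i B :: t, m, k => X.O.isLt (nthG X.O m i) B && runK X nr t m k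
  | Op.ball i B :: t, m, k =>
      let v := X.ball B (nthG X.O m i); X.O.ok v && runK X nr t (v :: m) k
  | Op.rball i j :: t, m, k =>
      let v := X.rball (nthG X.O m i) (nthG X.O m j); X.O.ok v && runK X nr t (v :: m) k

/-- number of values written -/
def nval : List Op → Nat
  | [] => 0
  | Op.pos _ :: t => nval t
  | Op.lt _ _ :: t => nval t
  | _ :: t => nval t + 1

theorem runX_append (X : XOps) (nr : Nat) (Q : List Op) : ∀ (P : List Op) (m : List X.O.α),
    runX X nr (P ++ Q) m = runK X nr P m (runX X nr Q) := by
  intro P
  induction P with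
  | nil => intro m; rfl
  | cons op t ih =>
    intro m
    cases op with
    | const z => exact congrArg (fun b => X.O.ok _ && b) (ih _)
    | add i j => exact congrArg (fun b => X.O.ok _ && b) (ih _)
    | sub i j => exact congrArg (fun b => X.O.ok _ && b) (ih _)
    | mul i j => exact congrArg (fun b => X.O.ok _ && b) (ih _)
    | scale z i => exact congrArg (fun b => X.O.ok _ && b) (ih _)
    | neg i => exact congrArg (fun b => X.O.ok _ && b) (ih _)
    | inv i => exact congrArg (fun b => X.O.ok _ && b) (ih _)
    | exp i => exact congrArg (fun b => X.O.ok _ && b) (ih _)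
    | log i => exact congrArg (fun b => X.O.ok _ && b) (ih _)
    | pos i => exact congrArg (fun b => X.O.isPos nr _ && b) (ih _)
    | lt i B => exact congrArg (fun b => X.O.isLt _ _ && b) (ih _)
    | ball i B => exact congrArg (fun b => X.O.ok _ && b) (ih _)
    | rball i j => exact congrArg (fun b => X.O.ok _ && b) (ih _)

theorem and_mono {a b c : Bool} (h : b = true → c = true) (H : (a && b) = true) :
    (a && c) = true := by
  have H' := (Bool.and_eq_true _ _).mp H
  exact (Bool.and_eq_true _ _).mpr ⟨H'.1, h H'.2⟩

theorem runK_mono (X : XOps) (nr : Nat) {k k' : List X.O.α → Bool} : ∀ (P : List Op)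
    (m : List X.O.α), (∀ m', m'.length = m.length + nval P → k m' = true → k' m' = true) →
    runK X nr P m k = true → runK X nr P m k' = true := by
  intro P
  induction P with
  | nil => intro m h H; exact h m rfl H
  | cons op t ih =>
    intro m h H
    have key : ∀ v : X.O.α, nval (op :: t) = nval t + 1 →
        ∀ m', m'.length = (v :: m).length + nval t → k m' = true → k' m' = true := by
      intro v hn m' hm
      refine h m' ?_
      rw [hm, hn, List.length_cons]
      omega
    cases op with
    | const z => exact and_mono (ih _ (key _ rfl)) H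
    | add i j => exact and_mono (ih _ (key _ rfl)) H
    | sub i j => exact and_mono (ih _ (key _ rfl)) H
    | mul i j => exact and_mono (ih _ (key _ rfl)) H
    | scale z i => exact and_mono (ih _ (key _ rfl)) H
    | neg i => exact and_mono (ih _ (key _ rfl)) H
    | inv i => exact and_mono (ih _ (key _ rfl)) H
    | exp i => exact and_mono (ih _ (key _ rfl)) H
    | log i => exact and_mono (ih _ (key _ rfl)) H
    | pos i => exact and_mono (ih _ h) H
    | lt i B => exact and_mono (ih _ h) H
    | ball i B => exact and_mono (ih _ (key _ rfl)) H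
    | rball i j => exact and_mono (ih _ (key _ rfl)) H

theorem nthG_append_lt (O : Ops) : ∀ (T m : List O.α) (j : Nat), j < T.length →
    nthG O (T ++ m) j = nthG O T j := by
  intro T
  induction T with
  | nil => intro m j h; simp at h
  | cons x t ih =>
    intro m j h
    cases j with
    | zero => rfl
    | succ n =>
      show nthG O (t ++ m) n = nthG O t n
      exact ih m n (by simpa using h)

theorem nthG_append_ge (O : Ops) : ∀ (T m : List O.α) (j : Nat),
    nthG O (T ++ m) (T.length + j) = nthG O m j := by
  intro T
  induction T with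
  | nil => intro m j; simp
  | cons x t ih =>
    intro m j
    have : (x :: t).length + j = (t.length + j) + 1 := by
      simp only [List.length_cons]; omega
    rw [this]
    show nthG O (t ++ m) (t.length + j) = nthG O m j
    exact ih m j

theorem nthG_big (O : Ops) : ∀ (m : List O.α) (j : Nat), m.length ≤ j → nthG O m j = O.bad := by
  intro m
  induction m with
  | nil => intro j _; cases j <;> rfl
  | cons x t ih =>
    intro j h
    cases j with
    | zero => simp at h
    | succ n => exact ih n (by simpa using h)

theorem nthG_map (O : Ops) (m : List O.α) (D : Nat) (hD : m.length ≤ D) : ∀ (σ : List Nat)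
    (j : Nat), nthG O (σ.map (nthG O m)) j = nthG O m (nthN σ j D) := by
  intro σ
  induction σ with
  | nil =>
    intro j
    have : nthG O m (nthN [] j D) = O.bad := nthG_big O m D hD
    rw [this]
    cases j <;> rfl
  | cons x t ih =>
    intro j
    cases j with
    | zero => rfl
    | succ n => exact ih n

theorem nthG_rn (O : Ops) (m : List O.α) (σ : List Nat) (D : Nat) (hD : m.length ≤ D)
    (T : List O.α) (j : Nat) :
    nthG O (T ++ m) (rn σ D T.length j) = nthG O (T ++ σ.map (nthG O m)) j := by
  unfold rn
  cases h : Nat.blt j T.length with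
  | true =>
    have h' : j < T.length := by
      have := Nat.le_of_ble_eq_true h
      exact this
    simp only [if_true]
    rw [nthG_append_lt O T m j h', nthG_append_lt O T _ j h']
  | false =>
    have h' : T.length ≤ j := by
      by_contra hc
      have hlt : j < T.length := by omega
      have : Nat.blt j T.length = true := Nat.ble_eq_true_of_le hlt
      rw [this] at h
      exact absurd h (by decide)
    obtain ⟨i, rfl⟩ := Nat.exists_eq_add_of_le h'
    simp only [Bool.false_eq_true, if_false]
    rw [nthG_append_ge, nthG_append_ge, Nat.add_sub_cancel_left, nthG_map O m D hD]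

theorem runX_reloc (X : XOps) (nr : Nat) (m : List X.O.α) (σ : List Nat) (D : Nat)
    (hD : m.length ≤ D) : ∀ (P T : List _),
    runX X nr (reloc σ D T.length P) (T ++ m) = runX X nr P (T ++ σ.map (nthG X.O m)) := by
  intro P
  induction P with
  | nil => intro T; rfl
  | cons op t ih =>
    intro T
    have R := nthG_rn X.O m σ D hD T
    cases op with
    | const z => exact congrArg (fun b => X.O.ok _ && b) (ih (_ :: T))
    | add i j =>
      show (X.O.ok (X.O.add (nthG X.O (T ++ m) (rn σ D T.length i))
        (nthG X.O (T ++ m) (rn σ D T.length j))) &&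
        runX X nr (reloc σ D (T.length + 1) t) ((X.O.add (nthG X.O (T ++ m) (rn σ D T.length i))
        (nthG X.O (T ++ m) (rn σ D T.length j))) :: (T ++ m))) = _
      rw [R i, R j]
      exact congrArg (fun b => X.O.ok _ && b) (ih (_ :: T))
    | sub i j =>
      show (X.O.ok (X.O.sub (nthG X.O (T ++ m) (rn σ D T.length i))
        (nthG X.O (T ++ m) (rn σ D T.length j))) &&
        runX X nr (reloc σ D (T.length + 1) t) ((X.O.sub (nthG X.O (T ++ m) (rn σ D T.length i))
        (nthG X.O (T ++ m) (rn σ D T.length j))) :: (T ++ m))) = _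
      rw [R i, R j]
      exact congrArg (fun b => X.O.ok _ && b) (ih (_ :: T))
    | mul i j =>
      show (X.O.ok (X.O.mul (nthG X.O (T ++ m) (rn σ D T.length i))
        (nthG X.O (T ++ m) (rn σ D T.length j))) &&
        runX X nr (reloc σ D (T.length + 1) t) ((X.O.mul (nthG X.O (T ++ m) (rn σ D T.length i))
        (nthG X.O (T ++ m) (rn σ D T.length j))) :: (T ++ m))) = _
      rw [R i, R j]
      exact congrArg (fun b => X.O.ok _ && b) (ih (_ :: T))
    | scale z i =>
      show (X.O.ok (X.O.scale z (nthG X.O (T ++ m) (rn σ D T.length i))) &&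
        runX X nr (reloc σ D (T.length + 1) t) ((X.O.scale z (nthG X.O (T ++ m) (rn σ D T.length i))) :: (T ++ m))) = _
      rw [R i]
      exact congrArg (fun b => X.O.ok _ && b) (ih (_ :: T))
    | neg i =>
      show (X.O.ok (X.O.neg (nthG X.O (T ++ m) (rn σ D T.length i))) &&
        runX X nr (reloc σ D (T.length + 1) t) ((X.O.neg (nthG X.O (T ++ m) (rn σ D T.length i))) :: (T ++ m))) = _
      rw [R i]
      exact congrArg (fun b => X.O.ok _ && b) (ih (_ :: T))
    | inv i =>
      show (X.O.ok (X.O.inv (nthG X.O (T ++ m) (rn σ D T.length i))) &&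
        runX X nr (reloc σ D (T.length + 1) t) ((X.O.inv (nthG X.O (T ++ m) (rn σ D T.length i))) :: (T ++ m))) = _
      rw [R i]
      exact congrArg (fun b => X.O.ok _ && b) (ih (_ :: T))
    | exp i =>
      show (X.O.ok (X.O.exp (nthG X.O (T ++ m) (rn σ D T.length i))) &&
        runX X nr (reloc σ D (T.length + 1) t) ((X.O.exp (nthG X.O (T ++ m) (rn σ D T.length i))) :: (T ++ m))) = _
      rw [R i]
      exact congrArg (fun b => X.O.ok _ && b) (ih (_ :: T))
    | log i =>
      show (X.O.ok (X.O.log (nthG X.O (T ++ m) (rn σ D T.length i))) &&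
        runX X nr (reloc σ D (T.length + 1) t) ((X.O.log (nthG X.O (T ++ m) (rn σ D T.length i))) :: (T ++ m))) = _
      rw [R i]
      exact congrArg (fun b => X.O.ok _ && b) (ih (_ :: T))
    | pos i =>
      show (X.O.isPos nr (nthG X.O (T ++ m) (rn σ D T.length i)) &&
        runX X nr (reloc σ D T.length t) (T ++ m)) = _
      rw [R i]
      exact congrArg (fun b => X.O.isPos nr _ && b) (ih T)
    | lt i B =>
      show (X.O.isLt (nthG X.O (T ++ m) (rn σ D T.length i)) B &&
        runX X nr (reloc σ D T.length t) (T ++ m)) = _
      rw [R i]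
      exact congrArg (fun b => X.O.isLt _ _ && b) (ih T)
    | ball i B =>
      show (X.O.ok (X.ball B (nthG X.O (T ++ m) (rn σ D T.length i))) &&
        runX X nr (reloc σ D (T.length + 1) t) ((X.ball B (nthG X.O (T ++ m) (rn σ D T.length i))) :: (T ++ m))) = _
      rw [R i]
      exact congrArg (fun b => X.O.ok _ && b) (ih (_ :: T))
    | rball i j =>
      show (X.O.ok (X.rball (nthG X.O (T ++ m) (rn σ D T.length i))
        (nthG X.O (T ++ m) (rn σ D T.length j))) &&
        runX X nr (reloc σ D (T.length + 1) t) ((X.rball (nthG X.O (T ++ m) (rn σ D T.length i))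
        (nthG X.O (T ++ m) (rn σ D T.length j))) :: (T ++ m))) = _
      rw [R i, R j]
      exact congrArg (fun b => X.O.ok _ && b) (ih (_ :: T))

/-- **Shared compiled form.** -/
theorem share {X : XOps} {nr : Nat} {P1 P2 : List Op} {σ : List Nat} {D : Nat}
    {chk2 : List X.O.α → Bool} (h2 : ∀ m, chk2 m = true → runX X nr P2 m = true)
    (m : List X.O.α) (hD : m.length + nval P1 ≤ D)
    (h : runK X nr P1 m (fun m' => chk2 (σ.map (nthG X.O m'))) = true) :
    runX X nr (P1 ++ reloc σ D 0 P2) m = true := by
  rw [runX_append]
  refine runK_mono X nr P1 m ?_ h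
  intro m' hm hc
  have := runX_reloc X nr m' σ D (by rw [hm]; exact hD) P2 []
  exact this.trans (h2 _ hc)

end Pool.Agent.helper14.NR
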