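import Pool.Agent.helper31.IX.Eng

/-!
# One program
-/

namespace Pool.Agent.helper14.NR

open Pool.Agent.helper31.IX (Op Cov CovD)

theorem cov_single {nd : Nat} {ops : List Op} {box : List (Nat × Nat)} (h : CovD nd [ops] box) :
    Cov nd ops box := by
  intro u x h1 h2 h3
  obtain ⟨o, ho, ha⟩ := h u x h1 h2 h3
  rw [List.mem_singleton] at ho
  exact ho ▸ ha

end Pool.Agent.helper14.NR
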