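import Pool.Agent.helper14.NR.Top
import Pool.Agent.helper14.NR.Share

/-!
Generated: the tops of the `b` ranges.
-/

namespace Pool.Agent.helper14.NR.TopC

open Pool.Agent.helper31.IA (Z)
open Pool.Agent.helper31.IX (Op XOps runX Cov CovD cov_split covD_split)
open Pool.Agent.helper31.IC (TD)
open Pool.Agent.helper63.RG (reloc)
open Pool.Agent.helper63.NF
open Pool.Agent.helper14.CF (xE covD_E)
open Pool.Agent.helper14.NR (share)

open Pool.Agent.helper14.NR (topP ρ1 topB top_of)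

theorem cov_single {nd : Nat} {ops : List Op} {box : List (Nat × Nat)} (h : CovD nd [ops] box) :
    Cov nd ops box := by
  intro u x h1 h2 h3
  obtain ⟨o, ho, ha⟩ := h u x h1 h2 h3
  rw [List.mem_singleton] at ho
  exact ho ▸ ha

def p_e4 : List Op := [
  .scale ⟨10447239512064, 0, 0, 0⟩ 0,
  .const ⟨0, 7472169353216, 0, 0⟩,
  .add 1 0,
  .mul 0 3,
  .const ⟨2956816547840, 0, 0, 0⟩,
  .add 1 0,
  .pos 0,
  .mul 6 0,
  .scale ⟨2199023255552, 0, 0, 0⟩ 0,
  .neg 0,
  .exp 0,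
  .const ⟨1099511627776, 0, 0, 0⟩,
  .sub 0 1,
  .scale ⟨2199023255552, 0, 0, 0⟩ 6,
  .neg 0,
  .exp 0,
  .const ⟨1099511627776, 0, 0, 0⟩,
  .add 0 1,
  .log 0,
  .const ⟨2199023255552, 0, 0, 0⟩,
  .log 0,
  .scale ⟨2199023255552, 0, 0, 0⟩ 20,
  .sub 1 3,
  .mul 1 0,
  .exp 0,
  .mul 3 4,
  .exp 0,
  .mul 14 14,
  .mul 0 3,
  .sub 0 2,
  .const ⟨1099511627776, 0, 0, 0⟩,
  .add 1 0,
  .pos 0]

set_option maxRecDepth 1000000 in
noncomputable def c_e4 {α : Type} (cst : Z → α) (add sub mul : α → α → α) (scale : Z → α → α)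
    (neg inv exp log : α → α) (ok : α → Bool) (isPos : Nat → α → Bool) (isLt : α → Nat → Bool)
    (ball : Nat → α → α) (rball : α → α → α) : List α → Bool
  | [x0] =>
  let v0 := scale ⟨10447239512064, 0, 0, 0⟩ x0; ok v0 && (
  let v1 := cst ⟨0, 7472169353216, 0, 0⟩; ok v1 && (
  let v2 := add v0 v1; ok v2 && (
  let v3 := mul v2 x0; ok v3 && (
  let v4 := cst ⟨2956816547840, 0, 0, 0⟩; ok v4 && (
  let v5 := add v3 v4; ok v5 && (
  isPos 1 v5 && (
  let v6 := mul x0 v5; ok v6 && (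
  let v7 := scale ⟨2199023255552, 0, 0, 0⟩ v6; ok v7 && (
  let v8 := neg v7; ok v8 && (
  let v9 := exp v8; ok v9 && (
  let v10 := cst ⟨1099511627776, 0, 0, 0⟩; ok v10 && (
  let v11 := sub v10 v9; ok v11 && (
  let v12 := scale ⟨2199023255552, 0, 0, 0⟩ v5; ok v12 && (
  let v13 := neg v12; ok v13 && (
  let v14 := exp v13; ok v14 && (
  let v15 := cst ⟨1099511627776, 0, 0, 0⟩; ok v15 && (
  let v16 := add v15 v14; ok v16 && (
  let v17 := log v16; ok v17 && (
  let v18 := cst ⟨2199023255552, 0, 0, 0⟩; ok v18 && (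
  let v19 := log v18; ok v19 && (
  let v20 := scale ⟨2199023255552, 0, 0, 0⟩ x0; ok v20 && (
  let v21 := sub v19 v17; ok v21 && (
  let v22 := mul v20 v21; ok v22 && (
  let v23 := exp v22; ok v23 && (
  let v24 := mul v20 v19; ok v24 && (
  let v25 := exp v24; ok v25 && (
  let v26 := mul v11 v11; ok v26 && (
  let v27 := mul v26 v23; ok v27 && (
  let v28 := sub v27 v25; ok v28 && (
  let v29 := cst ⟨1099511627776, 0, 0, 0⟩; ok v29 && (
  let v30 := add v28 v29; ok v30 && (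
  isPos 1 v30 && (
  true)))))))))))))))))))))))))))))))))
  | _ => false

set_option maxRecDepth 1000000 in
theorem c_e4_eq (X : XOps) (m : List X.O.α)
    (h : c_e4 X.O.cst X.O.add X.O.sub X.O.mul X.O.scale X.O.neg X.O.inv X.O.exp X.O.log X.O.ok
      X.O.isPos X.O.isLt X.ball X.rball m = true) :
    runX X 1 p_e4 m = true := by
  match m, h with
  | [x0], h => exact h

abbrev ge4 : List (List Op) := [p_e4]

noncomputable abbrev ke4 : List (List xE.O.α → Bool) := [c_e4 xE.O.cst xE.O.add xE.O.sub xE.O.mul xE.O.scale xE.O.neg xE.O.inv xE.O.exp xE.O.log xE.O.ok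
      xE.O.isPos xE.O.isLt xE.ball xE.rball]

theorem ke4_eq : List.Forall₂ (fun (ops : List Op) (chk : List xE.O.α → Bool) =>
    ∀ m, chk m = true → runX xE 1 ops m = true) ge4 ke4 :=
  List.Forall₂.cons (c_e4_eq xE) List.Forall₂.nil

theorem ge4_eq : ge4 = [comp (topP (2956816547840) (-7472169353216) (10447239512064)) ρ1 1] := by decide +kernel

theorem e4_c : CovD 0 ge4 [(247390535680, 27488419840)] :=
  covD_E ke4_eq (.l 0)
    [(247390535680, 27488419840)] rfl (by decide +kernel)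

theorem cov_e4 : Cov 0 (comp (topP (2956816547840) (-7472169353216) (10447239512064)) ρ1 1) [(247390535680, 27488419840)] :=
  cov_single (by rw [← ge4_eq]; exact e4_c)

theorem top_e4 {e κ : ℝ} (h1 : (4 : ℝ) ≤ e) (h2 : e ≤ 5)
    (hd : 2 * (Real.cosh κ - 1) / Real.cosh (e * κ / 2) ^ (2 / e) < 4 ^ (1 / e) - 1) :
    e * κ / 2 < topB (2956816547840) (-7472169353216) (10447239512064) (1 / e) := by
  have he : 0 < e := lt_of_lt_of_le (by norm_num) h1
  refine top_of cov_e4 he ?_ hd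
  rw [abs_le]
  constructor
  · rw [neg_le_sub_iff_le_add, ← sub_le_iff_le_add]
    refine le_trans ?_ (one_div_le_one_div_of_le he h2)
    norm_num
  · rw [sub_le_iff_le_add]
    refine (one_div_le_one_div_of_le (by norm_num) h1).trans ?_
    norm_num

def p_e5 : List Op := [
  .scale ⟨18587007844352, 0, 0, 0⟩ 0,
  .const ⟨0, 10701179453440, 0, 0⟩,
  .add 1 0,
  .mul 0 3,
  .const ⟨3277596917760, 0, 0, 0⟩,
  .add 1 0,
  .pos 0,
  .mul 6 0,
  .scale ⟨2199023255552, 0, 0, 0⟩ 0,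
  .neg 0,
  .exp 0,
  .const ⟨1099511627776, 0, 0, 0⟩,
  .sub 0 1,
  .scale ⟨2199023255552, 0, 0, 0⟩ 6,
  .neg 0,
  .exp 0,
  .const ⟨1099511627776, 0, 0, 0⟩,
  .add 0 1,
  .log 0,
  .const ⟨2199023255552, 0, 0, 0⟩,
  .log 0,
  .scale ⟨2199023255552, 0, 0, 0⟩ 20,
  .sub 1 3,
  .mul 1 0,
  .exp 0,
  .mul 3 4,
  .exp 0,
  .mul 14 14,
  .mul 0 3,
  .sub 0 2,
  .const ⟨1099511627776, 0, 0, 0⟩,
  .add 1 0,
  .pos 0]

set_option maxRecDepth 1000000 in
noncomputable def c_e5 {α : Type} (cst : Z → α) (add sub mul : α → α → α) (scale : Z → α → α)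
    (neg inv exp log : α → α) (ok : α → Bool) (isPos : Nat → α → Bool) (isLt : α → Nat → Bool)
    (ball : Nat → α → α) (rball : α → α → α) : List α → Bool
  | [x0] =>
  let v0 := scale ⟨18587007844352, 0, 0, 0⟩ x0; ok v0 && (
  let v1 := cst ⟨0, 10701179453440, 0, 0⟩; ok v1 && (
  let v2 := add v0 v1; ok v2 && (
  let v3 := mul v2 x0; ok v3 && (
  let v4 := cst ⟨3277596917760, 0, 0, 0⟩; ok v4 && (
  let v5 := add v3 v4; ok v5 && (
  isPos 1 v5 && (
  let v6 := mul x0 v5; ok v6 && (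
  let v7 := scale ⟨2199023255552, 0, 0, 0⟩ v6; ok v7 && (
  let v8 := neg v7; ok v8 && (
  let v9 := exp v8; ok v9 && (
  let v10 := cst ⟨1099511627776, 0, 0, 0⟩; ok v10 && (
  let v11 := sub v10 v9; ok v11 && (
  let v12 := scale ⟨2199023255552, 0, 0, 0⟩ v5; ok v12 && (
  let v13 := neg v12; ok v13 && (
  let v14 := exp v13; ok v14 && (
  let v15 := cst ⟨1099511627776, 0, 0, 0⟩; ok v15 && (
  let v16 := add v15 v14; ok v16 && (
  let v17 := log v16; ok v17 && (
  let v18 := cst ⟨2199023255552, 0, 0, 0⟩; ok v18 && (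
  let v19 := log v18; ok v19 && (
  let v20 := scale ⟨2199023255552, 0, 0, 0⟩ x0; ok v20 && (
  let v21 := sub v19 v17; ok v21 && (
  let v22 := mul v20 v21; ok v22 && (
  let v23 := exp v22; ok v23 && (
  let v24 := mul v20 v19; ok v24 && (
  let v25 := exp v24; ok v25 && (
  let v26 := mul v11 v11; ok v26 && (
  let v27 := mul v26 v23; ok v27 && (
  let v28 := sub v27 v25; ok v28 && (
  let v29 := cst ⟨1099511627776, 0, 0, 0⟩; ok v29 && (
  let v30 := add v28 v29; ok v30 && (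
  isPos 1 v30 && (
  true)))))))))))))))))))))))))))))))))
  | _ => false

set_option maxRecDepth 1000000 in
theorem c_e5_eq (X : XOps) (m : List X.O.α)
    (h : c_e5 X.O.cst X.O.add X.O.sub X.O.mul X.O.scale X.O.neg X.O.inv X.O.exp X.O.log X.O.ok
      X.O.isPos X.O.isLt X.ball X.rball m = true) :
    runX X 1 p_e5 m = true := by
  match m, h with
  | [x0], h => exact h

abbrev ge5 : List (List Op) := [p_e5]

noncomputable abbrev ke5 : List (List xE.O.α → Bool) := [c_e5 xE.O.cst xE.O.add xE.O.sub xE.O.mul xE.O.scale xE.O.neg xE.O.inv xE.O.exp xE.O.log xE.O.ok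
      xE.O.isPos xE.O.isLt xE.ball xE.rball]

theorem ke5_eq : List.Forall₂ (fun (ops : List Op) (chk : List xE.O.α → Bool) =>
    ∀ m, chk m = true → runX xE 1 ops m = true) ge5 ke5 :=
  List.Forall₂.cons (c_e5_eq xE) List.Forall₂.nil

theorem ge5_eq : ge5 = [comp (topP (3277596917760) (-10701179453440) (18587007844352)) ρ1 1] := by decide +kernel

theorem e5_c : CovD 0 ge5 [(195850928128, 24052236288)] :=
  covD_E ke5_eq (.n 0 (.l 0) (.l 0))
    [(195850928128, 24052236288)] rfl (by decide +kernel)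

theorem cov_e5 : Cov 0 (comp (topP (3277596917760) (-10701179453440) (18587007844352)) ρ1 1) [(195850928128, 24052236288)] :=
  cov_single (by rw [← ge5_eq]; exact e5_c)

theorem top_e5 {e κ : ℝ} (h1 : (5 : ℝ) ≤ e) (h2 : e ≤ 64 / 10)
    (hd : 2 * (Real.cosh κ - 1) / Real.cosh (e * κ / 2) ^ (2 / e) < 4 ^ (1 / e) - 1) :
    e * κ / 2 < topB (3277596917760) (-10701179453440) (18587007844352) (1 / e) := by
  have he : 0 < e := lt_of_lt_of_le (by norm_num) h1
  refine top_of cov_e5 he ?_ hd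
  rw [abs_le]
  constructor
  · rw [neg_le_sub_iff_le_add, ← sub_le_iff_le_add]
    refine le_trans ?_ (one_div_le_one_div_of_le he h2)
    norm_num
  · rw [sub_le_iff_le_add]
    refine (one_div_le_one_div_of_le (by norm_num) h1).trans ?_
    norm_num

def p_e6 : List Op := [
  .scale ⟨33292438994944, 0, 0, 0⟩ 0,
  .const ⟨0, 15300552556544, 0, 0⟩,
  .add 1 0,
  .mul 0 3,
  .const ⟨3637837299712, 0, 0, 0⟩,
  .add 1 0,
  .pos 0,
  .mul 6 0,
  .scale ⟨2199023255552, 0, 0, 0⟩ 0,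
  .neg 0,
  .exp 0,
  .const ⟨1099511627776, 0, 0, 0⟩,
  .sub 0 1,
  .scale ⟨2199023255552, 0, 0, 0⟩ 6,
  .neg 0,
  .exp 0,
  .const ⟨1099511627776, 0, 0, 0⟩,
  .add 0 1,
  .log 0,
  .const ⟨2199023255552, 0, 0, 0⟩,
  .log 0,
  .scale ⟨2199023255552, 0, 0, 0⟩ 20,
  .sub 1 3,
  .mul 1 0,
  .exp 0,
  .mul 3 4,
  .exp 0,
  .mul 14 14,
  .mul 0 3,
  .sub 0 2,
  .const ⟨1099511627776, 0, 0, 0⟩,
  .add 1 0,
  .pos 0]

set_option maxRecDepth 1000000 in
noncomputable def c_e6 {α : Type} (cst : Z → α) (add sub mul : α → α → α) (scale : Z → α → α)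
    (neg inv exp log : α → α) (ok : α → Bool) (isPos : Nat → α → Bool) (isLt : α → Nat → Bool)
    (ball : Nat → α → α) (rball : α → α → α) : List α → Bool
  | [x0] =>
  let v0 := scale ⟨33292438994944, 0, 0, 0⟩ x0; ok v0 && (
  let v1 := cst ⟨0, 15300552556544, 0, 0⟩; ok v1 && (
  let v2 := add v0 v1; ok v2 && (
  let v3 := mul v2 x0; ok v3 && (
  let v4 := cst ⟨3637837299712, 0, 0, 0⟩; ok v4 && (
  let v5 := add v3 v4; ok v5 && (
  isPos 1 v5 && (
  let v6 := mul x0 v5; ok v6 && (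
  let v7 := scale ⟨2199023255552, 0, 0, 0⟩ v6; ok v7 && (
  let v8 := neg v7; ok v8 && (
  let v9 := exp v8; ok v9 && (
  let v10 := cst ⟨1099511627776, 0, 0, 0⟩; ok v10 && (
  let v11 := sub v10 v9; ok v11 && (
  let v12 := scale ⟨2199023255552, 0, 0, 0⟩ v5; ok v12 && (
  let v13 := neg v12; ok v13 && (
  let v14 := exp v13; ok v14 && (
  let v15 := cst ⟨1099511627776, 0, 0, 0⟩; ok v15 && (
  let v16 := add v15 v14; ok v16 && (
  let v17 := log v16; ok v17 && (
  let v18 := cst ⟨2199023255552, 0, 0, 0⟩; ok v18 && (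
  let v19 := log v18; ok v19 && (
  let v20 := scale ⟨2199023255552, 0, 0, 0⟩ x0; ok v20 && (
  let v21 := sub v19 v17; ok v21 && (
  let v22 := mul v20 v21; ok v22 && (
  let v23 := exp v22; ok v23 && (
  let v24 := mul v20 v19; ok v24 && (
  let v25 := exp v24; ok v25 && (
  let v26 := mul v11 v11; ok v26 && (
  let v27 := mul v26 v23; ok v27 && (
  let v28 := sub v27 v25; ok v28 && (
  let v29 := cst ⟨1099511627776, 0, 0, 0⟩; ok v29 && (
  let v30 := add v28 v29; ok v30 && (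
  isPos 1 v30 && (
  true)))))))))))))))))))))))))))))))))
  | _ => false

set_option maxRecDepth 1000000 in
theorem c_e6_eq (X : XOps) (m : List X.O.α)
    (h : c_e6 X.O.cst X.O.add X.O.sub X.O.mul X.O.scale X.O.neg X.O.inv X.O.exp X.O.log X.O.ok
      X.O.isPos X.O.isLt X.ball X.rball m = true) :
    runX X 1 p_e6 m = true := by
  match m, h with
  | [x0], h => exact h

abbrev ge6 : List (List Op) := [p_e6]

noncomputable abbrev ke6 : List (List xE.O.α → Bool) := [c_e6 xE.O.cst xE.O.add xE.O.sub xE.O.mul xE.O.scale xE.O.neg xE.O.inv xE.O.exp xE.O.log xE.O.ok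
      xE.O.isPos xE.O.isLt xE.ball xE.rball]

theorem ke6_eq : List.Forall₂ (fun (ops : List Op) (chk : List xE.O.α → Bool) =>
    ∀ m, chk m = true → runX xE 1 ops m = true) ge6 ke6 :=
  List.Forall₂.cons (c_e6_eq xE) List.Forall₂.nil

theorem ge6_eq : ge6 = [comp (topP (3637837299712) (-15300552556544) (33292438994944)) ρ1 1] := by decide +kernel

theorem e6_c : CovD 0 ge6 [(154618822656, 17179869184)] :=
  covD_E ke6_eq (.l 0)
    [(154618822656, 17179869184)] rfl (by decide +kernel)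

theorem cov_e6 : Cov 0 (comp (topP (3637837299712) (-15300552556544) (33292438994944)) ρ1 1) [(154618822656, 17179869184)] :=
  cov_single (by rw [← ge6_eq]; exact e6_c)

theorem top_e6 {e κ : ℝ} (h1 : (64 / 10 : ℝ) ≤ e) (h2 : e ≤ 8)
    (hd : 2 * (Real.cosh κ - 1) / Real.cosh (e * κ / 2) ^ (2 / e) < 4 ^ (1 / e) - 1) :
    e * κ / 2 < topB (3637837299712) (-15300552556544) (33292438994944) (1 / e) := by
  have he : 0 < e := lt_of_lt_of_le (by norm_num) h1
  refine top_of cov_e6 he ?_ hd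
  rw [abs_le]
  constructor
  · rw [neg_le_sub_iff_le_add, ← sub_le_iff_le_add]
    refine le_trans ?_ (one_div_le_one_div_of_le he h2)
    norm_num
  · rw [sub_le_iff_le_add]
    refine (one_div_le_one_div_of_le (by norm_num) h1).trans ?_
    norm_num

def p_e8 : List Op := [
  .scale ⟨71518453235712, 0, 0, 0⟩ 0,
  .const ⟨0, 24477018619904, 0, 0⟩,
  .add 1 0,
  .mul 0 3,
  .const ⟨4191082774528, 0, 0, 0⟩,
  .add 1 0,
  .pos 0,
  .mul 6 0,
  .scale ⟨2199023255552, 0, 0, 0⟩ 0,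
  .neg 0,
  .exp 0,
  .const ⟨1099511627776, 0, 0, 0⟩,
  .sub 0 1,
  .scale ⟨2199023255552, 0, 0, 0⟩ 6,
  .neg 0,
  .exp 0,
  .const ⟨1099511627776, 0, 0, 0⟩,
  .add 0 1,
  .log 0,
  .const ⟨2199023255552, 0, 0, 0⟩,
  .log 0,
  .scale ⟨2199023255552, 0, 0, 0⟩ 20,
  .sub 1 3,
  .mul 1 0,
  .exp 0,
  .mul 3 4,
  .exp 0,
  .mul 14 14,
  .mul 0 3,
  .sub 0 2,
  .const ⟨1099511627776, 0, 0, 0⟩,
  .add 1 0,
  .pos 0]

set_option maxRecDepth 1000000 in
noncomputable def c_e8 {α : Type} (cst : Z → α) (add sub mul : α → α → α) (scale : Z → α → α)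
    (neg inv exp log : α → α) (ok : α → Bool) (isPos : Nat → α → Bool) (isLt : α → Nat → Bool)
    (ball : Nat → α → α) (rball : α → α → α) : List α → Bool
  | [x0] =>
  let v0 := scale ⟨71518453235712, 0, 0, 0⟩ x0; ok v0 && (
  let v1 := cst ⟨0, 24477018619904, 0, 0⟩; ok v1 && (
  let v2 := add v0 v1; ok v2 && (
  let v3 := mul v2 x0; ok v3 && (
  let v4 := cst ⟨4191082774528, 0, 0, 0⟩; ok v4 && (
  let v5 := add v3 v4; ok v5 && (
  isPos 1 v5 && (
  let v6 := mul x0 v5; ok v6 && (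
  let v7 := scale ⟨2199023255552, 0, 0, 0⟩ v6; ok v7 && (
  let v8 := neg v7; ok v8 && (
  let v9 := exp v8; ok v9 && (
  let v10 := cst ⟨1099511627776, 0, 0, 0⟩; ok v10 && (
  let v11 := sub v10 v9; ok v11 && (
  let v12 := scale ⟨2199023255552, 0, 0, 0⟩ v5; ok v12 && (
  let v13 := neg v12; ok v13 && (
  let v14 := exp v13; ok v14 && (
  let v15 := cst ⟨1099511627776, 0, 0, 0⟩; ok v15 && (
  let v16 := add v15 v14; ok v16 && (
  let v17 := log v16; ok v17 && (
  let v18 := cst ⟨2199023255552, 0, 0, 0⟩; ok v18 && (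
  let v19 := log v18; ok v19 && (
  let v20 := scale ⟨2199023255552, 0, 0, 0⟩ x0; ok v20 && (
  let v21 := sub v19 v17; ok v21 && (
  let v22 := mul v20 v21; ok v22 && (
  let v23 := exp v22; ok v23 && (
  let v24 := mul v20 v19; ok v24 && (
  let v25 := exp v24; ok v25 && (
  let v26 := mul v11 v11; ok v26 && (
  let v27 := mul v26 v23; ok v27 && (
  let v28 := sub v27 v25; ok v28 && (
  let v29 := cst ⟨1099511627776, 0, 0, 0⟩; ok v29 && (
  let v30 := add v28 v29; ok v30 && (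
  isPos 1 v30 && (
  true)))))))))))))))))))))))))))))))))
  | _ => false

set_option maxRecDepth 1000000 in
theorem c_e8_eq (X : XOps) (m : List X.O.α)
    (h : c_e8 X.O.cst X.O.add X.O.sub X.O.mul X.O.scale X.O.neg X.O.inv X.O.exp X.O.log X.O.ok
      X.O.isPos X.O.isLt X.ball X.rball m = true) :
    runX X 1 p_e8 m = true := by
  match m, h with
  | [x0], h => exact h

abbrev ge8 : List (List Op) := [p_e8]

noncomputable abbrev ke8 : List (List xE.O.α → Bool) := [c_e8 xE.O.cst xE.O.add xE.O.sub xE.O.mul xE.O.scale xE.O.neg xE.O.inv xE.O.exp xE.O.log xE.O.ok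
      xE.O.isPos xE.O.isLt xE.ball xE.rball]

theorem ke8_eq : List.Forall₂ (fun (ops : List Op) (chk : List xE.O.α → Bool) =>
    ∀ m, chk m = true → runX xE 1 ops m = true) ge8 ke8 :=
  List.Forall₂.cons (c_e8_eq xE) List.Forall₂.nil

theorem ge8_eq : ge8 = [comp (topP (4191082774528) (-24477018619904) (71518453235712)) ρ1 1] := by decide +kernel

theorem e8_c : CovD 0 ge8 [(114532810752, 22907191296)] :=
  covD_E ke8_eq (.n 0 (.l 0) (.n 0 (.l 0) (.l 0)))
    [(114532810752, 22907191296)] rfl (by decide +kernel)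

theorem cov_e8 : Cov 0 (comp (topP (4191082774528) (-24477018619904) (71518453235712)) ρ1 1) [(114532810752, 22907191296)] :=
  cov_single (by rw [← ge8_eq]; exact e8_c)

theorem top_e8 {e κ : ℝ} (h1 : (8 : ℝ) ≤ e) (h2 : e ≤ 12)
    (hd : 2 * (Real.cosh κ - 1) / Real.cosh (e * κ / 2) ^ (2 / e) < 4 ^ (1 / e) - 1) :
    e * κ / 2 < topB (4191082774528) (-24477018619904) (71518453235712) (1 / e) := by
  have he : 0 < e := lt_of_lt_of_le (by norm_num) h1
  refine top_of cov_e8 he ?_ hd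
  rw [abs_le]
  constructor
  · rw [neg_le_sub_iff_le_add, ← sub_le_iff_le_add]
    refine le_trans ?_ (one_div_le_one_div_of_le he h2)
    norm_num
  · rw [sub_le_iff_le_add]
    refine (one_div_le_one_div_of_le (by norm_num) h1).trans ?_
    norm_num

def p_e12 : List Op := [
  .scale ⟨221037539098624, 0, 0, 0⟩ 0,
  .const ⟨0, 48578496036864, 0, 0⟩,
  .add 1 0,
  .mul 0 3,
  .const ⟨5170066882560, 0, 0, 0⟩,
  .add 1 0,
  .pos 0,
  .mul 6 0,
  .scale ⟨2199023255552, 0, 0, 0⟩ 0,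
  .neg 0,
  .exp 0,
  .const ⟨1099511627776, 0, 0, 0⟩,
  .sub 0 1,
  .scale ⟨2199023255552, 0, 0, 0⟩ 6,
  .neg 0,
  .exp 0,
  .const ⟨1099511627776, 0, 0, 0⟩,
  .add 0 1,
  .log 0,
  .const ⟨2199023255552, 0, 0, 0⟩,
  .log 0,
  .scale ⟨2199023255552, 0, 0, 0⟩ 20,
  .sub 1 3,
  .mul 1 0,
  .exp 0,
  .mul 3 4,
  .exp 0,
  .mul 14 14,
  .mul 0 3,
  .sub 0 2,
  .const ⟨1099511627776, 0, 0, 0⟩,
  .add 1 0,
  .pos 0]

set_option maxRecDepth 1000000 in
noncomputable def c_e12 {α : Type} (cst : Z → α) (add sub mul : α → α → α) (scale : Z → α → α)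
    (neg inv exp log : α → α) (ok : α → Bool) (isPos : Nat → α → Bool) (isLt : α → Nat → Bool)
    (ball : Nat → α → α) (rball : α → α → α) : List α → Bool
  | [x0] =>
  let v0 := scale ⟨221037539098624, 0, 0, 0⟩ x0; ok v0 && (
  let v1 := cst ⟨0, 48578496036864, 0, 0⟩; ok v1 && (
  let v2 := add v0 v1; ok v2 && (
  let v3 := mul v2 x0; ok v3 && (
  let v4 := cst ⟨5170066882560, 0, 0, 0⟩; ok v4 && (
  let v5 := add v3 v4; ok v5 && (
  isPos 1 v5 && (
  let v6 := mul x0 v5; ok v6 && (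
  let v7 := scale ⟨2199023255552, 0, 0, 0⟩ v6; ok v7 && (
  let v8 := neg v7; ok v8 && (
  let v9 := exp v8; ok v9 && (
  let v10 := cst ⟨1099511627776, 0, 0, 0⟩; ok v10 && (
  let v11 := sub v10 v9; ok v11 && (
  let v12 := scale ⟨2199023255552, 0, 0, 0⟩ v5; ok v12 && (
  let v13 := neg v12; ok v13 && (
  let v14 := exp v13; ok v14 && (
  let v15 := cst ⟨1099511627776, 0, 0, 0⟩; ok v15 && (
  let v16 := add v15 v14; ok v16 && (
  let v17 := log v16; ok v17 && (
  let v18 := cst ⟨2199023255552, 0, 0, 0⟩; ok v18 && (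
  let v19 := log v18; ok v19 && (
  let v20 := scale ⟨2199023255552, 0, 0, 0⟩ x0; ok v20 && (
  let v21 := sub v19 v17; ok v21 && (
  let v22 := mul v20 v21; ok v22 && (
  let v23 := exp v22; ok v23 && (
  let v24 := mul v20 v19; ok v24 && (
  let v25 := exp v24; ok v25 && (
  let v26 := mul v11 v11; ok v26 && (
  let v27 := mul v26 v23; ok v27 && (
  let v28 := sub v27 v25; ok v28 && (
  let v29 := cst ⟨1099511627776, 0, 0, 0⟩; ok v29 && (
  let v30 := add v28 v29; ok v30 && (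
  isPos 1 v30 && (
  true)))))))))))))))))))))))))))))))))
  | _ => false

set_option maxRecDepth 1000000 in
theorem c_e12_eq (X : XOps) (m : List X.O.α)
    (h : c_e12 X.O.cst X.O.add X.O.sub X.O.mul X.O.scale X.O.neg X.O.inv X.O.exp X.O.log X.O.ok
      X.O.isPos X.O.isLt X.ball X.rball m = true) :
    runX X 1 p_e12 m = true := by
  match m, h with
  | [x0], h => exact h

abbrev ge12 : List (List Op) := [p_e12]

noncomputable abbrev ke12 : List (List xE.O.α → Bool) := [c_e12 xE.O.cst xE.O.add xE.O.sub xE.O.mul xE.O.scale xE.O.neg xE.O.inv xE.O.exp xE.O.log xE.O.ok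
      xE.O.isPos xE.O.isLt xE.ball xE.rball]

theorem ke12_eq : List.Forall₂ (fun (ops : List Op) (chk : List xE.O.α → Bool) =>
    ∀ m, chk m = true → runX xE 1 ops m = true) ge12 ke12 :=
  List.Forall₂.cons (c_e12_eq xE) List.Forall₂.nil

theorem ge12_eq : ge12 = [comp (topP (5170066882560) (-48578496036864) (221037539098624)) ρ1 1] := by decide +kernel

theorem e12_c : CovD 0 ge12 [(73300705280, 18325962752)] :=
  covD_E ke12_eq (.n 0 (.l 0) (.n 0 (.l 0) (.n 0 (.l 0) (.l 0))))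
    [(73300705280, 18325962752)] rfl (by decide +kernel)

theorem cov_e12 : Cov 0 (comp (topP (5170066882560) (-48578496036864) (221037539098624)) ρ1 1) [(73300705280, 18325962752)] :=
  cov_single (by rw [← ge12_eq]; exact e12_c)

theorem top_e12 {e κ : ℝ} (h1 : (12 : ℝ) ≤ e) (h2 : e ≤ 20)
    (hd : 2 * (Real.cosh κ - 1) / Real.cosh (e * κ / 2) ^ (2 / e) < 4 ^ (1 / e) - 1) :
    e * κ / 2 < topB (5170066882560) (-48578496036864) (221037539098624) (1 / e) := by
  have he : 0 < e := lt_of_lt_of_le (by norm_num) h1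
  refine top_of cov_e12 he ?_ hd
  rw [abs_le]
  constructor
  · rw [neg_le_sub_iff_le_add, ← sub_le_iff_le_add]
    refine le_trans ?_ (one_div_le_one_div_of_le he h2)
    norm_num
  · rw [sub_le_iff_le_add]
    refine (one_div_le_one_div_of_le (by norm_num) h1).trans ?_
    norm_num

end Pool.Agent.helper14.NR.TopC
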