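import Pool.Agent.helper14.NR.E4a.Pc
import Pool.Agent.helper14.NR.E4b.Pc
import Pool.Agent.helper14.NR.E4c.Pc
import Pool.Agent.helper14.NR.E4d.Pc
import Pool.Agent.helper14.NR.E5a.Pc
import Pool.Agent.helper14.NR.E5b.Pc
import Pool.Agent.helper14.NR.E5c.Pc
import Pool.Agent.helper14.NR.E5d.Pc
import Pool.Agent.helper14.NR.E6a.Pc
import Pool.Agent.helper14.NR.E6b.Pc
import Pool.Agent.helper14.NR.E6c.Pc
import Pool.Agent.helper14.NR.E6d.Pc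
import Pool.Agent.helper14.NR.E8a.Pc
import Pool.Agent.helper14.NR.E8b.Pc
import Pool.Agent.helper14.NR.E8c.Pc
import Pool.Agent.helper14.NR.E8d.Pc
import Pool.Agent.helper14.NR.E8e.Pc
import Pool.Agent.helper14.NR.E12a.Pc
import Pool.Agent.helper14.NR.E12b.Pc
import Pool.Agent.helper14.NR.E12c.Pc
import Pool.Agent.helper14.NR.E12d.Pc
import Pool.Agent.helper14.NR.E12e.Pc

/-!
# The near field for `4 ≤ e ≤ 20`: the cover

The corners of the five strips and the far field are hypotheses.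
-/

namespace Pool.Agent.helper14.NR

open Pool.Agent.helper31.EQ.R
open Pool.Agent.helper12.RS
open Pool.Agent.helper63.NF hiding TD

variable {e κ : ℝ}

theorem near4 (h1 : 4 ≤ e) (h2 : e ≤ 5) (hκ : 0 < κ)
    (hd : 2 * (Real.cosh κ - 1) / Real.cosh (e * κ / 2) ^ (2 / e) < 4 ^ (1 / e) - 1)
    (hcor : e * κ / 2 ≤ 3 / 20 → SF E4a.tab 8 e κ (39 / 10) →
      Corner E4a.tab 8 e κ (1 / 8) (1 / 20))
    (far : FarW e κ) : Nonempty (RDataF e κ) := by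
  rcases le_total (e * κ / 2) (3 / 20) with b1 | b1
  · exact E4a.piece h1 h2 hκ b1 (hcor b1) far
  rcases le_total (e * κ / 2) (2 / 5) with b2 | b2
  · exact E4b.piece h1 h2 hκ b1 b2 far
  rcases le_total (e * κ / 2) (838861 / 1048576) with b3 | b3
  · exact E4c.piece h1 h2 hκ b2 b3 far
  · exact E4d.piece h1 h2 hκ b3 hd far

theorem near5 (h1 : 5 ≤ e) (h2 : e ≤ 32 / 5) (hκ : 0 < κ)
    (hd : 2 * (Real.cosh κ - 1) / Real.cosh (e * κ / 2) ^ (2 / e) < 4 ^ (1 / e) - 1)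
    (hcor : e * κ / 2 ≤ 3 / 20 → SF E5a.tab 7 e κ (39 / 10) →
      Corner E5a.tab 7 e κ (1 / 8) (1 / 20))
    (far : FarW e κ) : Nonempty (RDataF e κ) := by
  rcases le_total (e * κ / 2) (3 / 20) with b1 | b1
  · exact E5a.piece h1 h2 hκ b1 (hcor b1) far
  rcases le_total (e * κ / 2) (2 / 5) with b2 | b2
  · exact E5b.piece h1 h2 hκ b1 b2 far
  rcases le_total (e * κ / 2) (838861 / 1048576) with b3 | b3
  · exact E5c.piece h1 h2 hκ b2 b3 far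
  · exact E5d.piece h1 h2 hκ b3 hd far

theorem near6 (h1 : 32 / 5 ≤ e) (h2 : e ≤ 8) (hκ : 0 < κ)
    (hd : 2 * (Real.cosh κ - 1) / Real.cosh (e * κ / 2) ^ (2 / e) < 4 ^ (1 / e) - 1)
    (hcor : e * κ / 2 ≤ 1 / 4 → SF E6a.tab 7 e κ (39 / 10) →
      Corner E6a.tab 7 e κ (1 / 8) (1 / 20))
    (far : FarW e κ) : Nonempty (RDataF e κ) := by
  rcases le_total (e * κ / 2) (1 / 4) with b1 | b1
  · exact E6a.piece h1 h2 hκ b1 (hcor b1) far
  rcases le_total (e * κ / 2) (1 / 2) with b2 | b2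
  · exact E6b.piece h1 h2 hκ b1 b2 far
  rcases le_total (e * κ / 2) 1 with b3 | b3
  · exact E6c.piece h1 h2 hκ b2 b3 far
  · exact E6d.piece h1 h2 hκ b3 hd far

theorem near8 (h1 : 8 ≤ e) (h2 : e ≤ 12) (hκ : 0 < κ)
    (hd : 2 * (Real.cosh κ - 1) / Real.cosh (e * κ / 2) ^ (2 / e) < 4 ^ (1 / e) - 1)
    (hcor : e * κ / 2 ≤ 1 / 4 → SF E8a.tab 6 e κ (39 / 10) →
      Corner E8a.tab 6 e κ (1 / 8) (1 / 20))
    (far : FarW e κ) : Nonempty (RDataF e κ) := by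
  rcases le_total (e * κ / 2) (1 / 4) with b1 | b1
  · exact E8a.piece h1 h2 hκ b1 (hcor b1) far
  rcases le_total (e * κ / 2) (1 / 2) with b2 | b2
  · exact E8b.piece h1 h2 hκ b1 b2 far
  rcases le_total (e * κ / 2) 1 with b3 | b3
  · exact E8c.piece h1 h2 hκ b2 b3 far
  rcases le_total (e * κ / 2) (838861 / 524288) with b4 | b4
  · exact E8d.piece h1 h2 hκ b3 b4 far
  · exact E8e.piece h1 h2 hκ b4 hd far

theorem near12 (h1 : 12 ≤ e) (h2 : e ≤ 20) (hκ : 0 < κ)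
    (hd : 2 * (Real.cosh κ - 1) / Real.cosh (e * κ / 2) ^ (2 / e) < 4 ^ (1 / e) - 1)
    (hcor : e * κ / 2 ≤ 1 / 4 → SF E12a.tab 6 e κ (39 / 10) →
      Corner E12a.tab 6 e κ (1 / 8) (1 / 20))
    (far : FarW e κ) : Nonempty (RDataF e κ) := by
  rcases le_total (e * κ / 2) (1 / 4) with b1 | b1
  · exact E12a.piece h1 h2 hκ b1 (hcor b1) far
  rcases le_total (e * κ / 2) (1 / 2) with b2 | b2
  · exact E12b.piece h1 h2 hκ b1 b2 far
  rcases le_total (e * κ / 2) 1 with b3 | b3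
  · exact E12c.piece h1 h2 hκ b2 b3 far
  rcases le_total (e * κ / 2) (1887437 / 1048576) with b4 | b4
  · exact E12d.piece h1 h2 hκ b3 b4 far
  · exact E12e.piece h1 h2 hκ b4 hd far

/-- **The near field, `4 ≤ e ≤ 20`.** -/
theorem near20 (h4 : 4 ≤ e) (h20 : e ≤ 20) (hκ : 0 < κ)
    (hd : 2 * (Real.cosh κ - 1) / Real.cosh (e * κ / 2) ^ (2 / e) < 4 ^ (1 / e) - 1)
    (c4 : e ≤ 5 → e * κ / 2 ≤ 3 / 20 → SF E4a.tab 8 e κ (39 / 10) →
      Corner E4a.tab 8 e κ (1 / 8) (1 / 20))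
    (c5 : 5 ≤ e → e ≤ 32 / 5 → e * κ / 2 ≤ 3 / 20 → SF E5a.tab 7 e κ (39 / 10) →
      Corner E5a.tab 7 e κ (1 / 8) (1 / 20))
    (c6 : 32 / 5 ≤ e → e ≤ 8 → e * κ / 2 ≤ 1 / 4 → SF E6a.tab 7 e κ (39 / 10) →
      Corner E6a.tab 7 e κ (1 / 8) (1 / 20))
    (c8 : 8 ≤ e → e ≤ 12 → e * κ / 2 ≤ 1 / 4 → SF E8a.tab 6 e κ (39 / 10) →
      Corner E8a.tab 6 e κ (1 / 8) (1 / 20))
    (c12 : 12 ≤ e → e * κ / 2 ≤ 1 / 4 → SF E12a.tab 6 e κ (39 / 10) →
      Corner E12a.tab 6 e κ (1 / 8) (1 / 20))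
    (far : FarW e κ) : Nonempty (RDataF e κ) := by
  rcases le_total e 5 with a1 | a1
  · exact near4 h4 a1 hκ hd (c4 a1) far
  rcases le_total e (32 / 5) with a2 | a2
  · exact near5 a1 a2 hκ hd (c5 a1 a2) far
  rcases le_total e 8 with a3 | a3
  · exact near6 a2 a3 hκ hd (c6 a2 a3) far
  rcases le_total e 12 with a4 | a4
  · exact near8 a3 a4 hκ hd (c8 a3 a4) far
  · exact near12 a4 h20 hκ hd (c12 a4) far

end Pool.Agent.helper14.NR
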